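import Mathlib
import Pool.Graph.R_pool_sql_team_seeded_b0a926ef.R582.GG.Final

set_option autoImplicit false

/-!
# `C_p(X)` and the property `S₁(Γ₀,Γ₀)`
-/

namespace Pool.Agent.H735.Cp

open Cardinal Set Filter Topology MeasureTheory
open Pool.Agent.R582.GG

/-- `A ∈ Γ_y`: `A` is a countably infinite set not containing `y` and every neighbourhood of `y` omits
only finitely many points of `A` -/
def Gam {Y : Type} [TopologicalSpace Y] (y : Y) : Set (Set Y) :=
  {A | A.Countable ∧ A.Infinite ∧ y ∉ A ∧ ∀ U ∈ 𝓝 y, (A \ U).Finite}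

/-- `Y` satisfies `S₁(Γ_y,Γ_y)` -/
def S1 {Y : Type} [TopologicalSpace Y] (y : Y) : Prop :=
  ∀ A : ℕ → Set Y, (∀ n, A n ∈ Gam y) → ∃ a : ℕ → Y, (∀ n, a n ∈ A n) ∧ range a ∈ Gam y

/-- `C_p(X)`: the continuous real functions on `X`, a subspace of the product `ℝ ^ X` -/
abbrev CpX (X : Set ℝ) : Type := {f : X → ℝ // Continuous f}

/-- the constant zero function -/
def zero (X : Set ℝ) : CpX X := ⟨fun _ => 0, continuous_const⟩

/-- The sentence of the frozen statement -/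
def Sentence : Prop :=
  ∀ (ι : Type) (X : ι → Set ℝ),
    (∀ F : ι → ℕ → ℕ, ∃ g : ℕ → ℕ, ∀ i, ∀ᶠ n in atTop, F i n ≤ g n) →
    (∀ i, X i ⊆ {x : ℝ | Irrational x}) →
    (∀ i, ∀ f : ℕ → ℕ → C(↥(X i), ℝ),
      (∀ n, ∀ x, Tendsto (fun k => f n k x) atTop (𝓝 0)) →
      ∃ m : ℕ → ℕ, ∀ x, Tendsto (fun n => f n (m n) x) atTop (𝓝 0)) →
    ∀ f : ℕ → ℕ → C(↥(⋃ i, X i), ℝ),
      (∀ n, ∀ x, Tendsto (fun k => f n k x) atTop (𝓝 0)) →
      ∃ m : ℕ → ℕ, ∀ x, Tendsto (fun n => f n (m n) x) atTop (𝓝 0)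

/-- the criterion of `sgg_of` -/
def Sel (X : Set ℝ) : Prop :=
  ∀ V : ℕ → ℕ → Set ℝ, (∀ n m, IsOpen (V n m)) →
    (∀ x ∈ X, ∀ n, ∃ k, ∀ m, k ≤ m → x ∈ V n m) →
    ∃ f : ℕ → ℕ, ∀ x ∈ X, ∃ k, ∀ n, k ≤ n → x ∈ V n (f n)

/-- the sequence form of `α₂` -/
def Seq (X : Set ℝ) : Prop :=
  ∀ f : ℕ → ℕ → C(X, ℝ), (∀ n, ∀ x, Tendsto (fun k => f n k x) atTop (𝓝 0)) →
    ∃ m : ℕ → ℕ, ∀ x, Tendsto (fun n => f n (m n) x) atTop (𝓝 0)

theorem Sel.seq' {X : Set ℝ} (h : Sel X) (f : ℕ → ℕ → C(X, ℝ))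
    (hf : ∀ n, ∀ x, Tendsto (fun k => f n k x) atTop (𝓝 0)) :
    ∃ m : ℕ → ℕ, ∀ x, ∃ k, ∀ n, k ≤ n → |f n (m n) x| < 1 / ((n : ℝ) + 1) := by
  have hO : ∀ n k, ∃ V : Set ℝ, IsOpen V ∧ Subtype.val ⁻¹' V = {x : X | |f n k x| < 1 / ((n : ℝ) + 1)} := by
    intro n k
    have : IsOpen {x : X | |f n k x| < 1 / ((n : ℝ) + 1)} :=
      isOpen_lt ((f n k).continuous.abs) continuous_const
    exact isOpen_induced_iff.1 this
  choose V hV1 hV2 using hO
  have hmem : ∀ n k (x : X), (x : ℝ) ∈ V n k ↔ |f n k x| < 1 / ((n : ℝ) + 1) := by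
    intro n k x
    have : x ∈ Subtype.val ⁻¹' V n k ↔ x ∈ {x : X | |f n k x| < 1 / ((n : ℝ) + 1)} := by rw [hV2]
    simpa using this
  obtain ⟨m, hm⟩ := h V hV1 (by
    intro x hx n
    have h1 := (hf n ⟨x, hx⟩)
    rw [Metric.tendsto_atTop] at h1
    obtain ⟨k, hk⟩ := h1 (1 / ((n : ℝ) + 1)) (by positivity)
    refine ⟨k, fun j hj => (hmem n j ⟨x, hx⟩).2 ?_⟩
    simpa [Real.dist_eq] using hk j hj)
  refine ⟨m, fun x => ?_⟩
  obtain ⟨k, hk⟩ := hm x x.2
  exact ⟨k, fun n hn => (hmem n (m n) x).1 (hk n hn)⟩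

theorem Sel.seq {X : Set ℝ} (h : Sel X) : Seq X := by
  intro f hf
  obtain ⟨m, hm⟩ := h.seq' f hf
  refine ⟨m, fun x => ?_⟩
  obtain ⟨k, hk⟩ := hm x
  refine squeeze_zero_norm' (a := fun n : ℕ => 1 / ((n : ℝ) + 1)) ?_ tendsto_one_div_add_atTop_nhds_zero_nat
  refine eventually_atTop.2 ⟨k, fun n hn => ?_⟩
  rw [Real.norm_eq_abs]
  exact (hk n hn).le

/-- convergence in `C_p(X)` of an injectively enumerated element of `Γ₀` -/
theorem tendsto_of_gam {Y : Type} [TopologicalSpace Y] {y : Y} {A : Set Y} (hA : A ∈ Gam y)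
    (e : ℕ → Y) (he : Function.Injective e) (heA : ∀ n, e n ∈ A) : Tendsto e atTop (𝓝 y) := by
  rw [tendsto_def]
  intro U hU
  have h1 : (e ⁻¹' (A \ U)).Finite := (hA.2.2.2 U hU).preimage he.injOn
  obtain ⟨k, hk⟩ := h1.bddAbove
  refine mem_atTop_sets.2 ⟨k + 1, fun n hn => ?_⟩
  by_contra hcon
  have : n ≤ k := hk ⟨heA n, hcon⟩
  omega

theorem Sel.s1 {X : Set ℝ} (h : Sel X) : S1 (zero X) := by
  classical
  intro A hA
  let e : ℕ → ℕ → CpX X := fun n k => ((hA n).2.1.natEmbedding (A n) k).1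
  have heA : ∀ n k, e n k ∈ A n := fun n k => ((hA n).2.1.natEmbedding (A n) k).2
  have hinj : ∀ n, Function.Injective (e n) := fun n =>
    Subtype.val_injective.comp ((hA n).2.1.natEmbedding (A n)).injective
  let f : ℕ → ℕ → C(X, ℝ) := fun n k => ⟨(e n k).1, (e n k).2⟩
  have hf : ∀ n, ∀ x, Tendsto (fun k => f n k x) atTop (𝓝 0) := by
    intro n x
    have h1 := tendsto_of_gam (hA n) (e n) (hinj n) (heA n)
    have h2 : Continuous fun g : CpX X => g.1 x := (continuous_apply x).comp continuous_subtype_val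
    exact (h2.tendsto (zero X)).comp h1
  obtain ⟨m, hm⟩ := h.seq' f hf
  have hconv : ∀ U ∈ 𝓝 (zero X), ∃ k, ∀ n, k ≤ n → e n (m n) ∈ U := by
    have ht : Tendsto (fun n => e n (m n)) atTop (𝓝 (zero X)) := by
      rw [tendsto_subtype_rng, tendsto_pi_nhds]
      intro x
      obtain ⟨k, hk⟩ := hm x
      refine squeeze_zero_norm' (a := fun n : ℕ => 1 / ((n : ℝ) + 1)) ?_
        tendsto_one_div_add_atTop_nhds_zero_nat
      refine eventually_atTop.2 ⟨k, fun n hn => ?_⟩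
      rw [Real.norm_eq_abs]
      exact (hk n hn).le
    intro U hU
    exact eventually_atTop.1 (ht.eventually_mem hU)
  refine ⟨fun n => e n (m n), fun n => heA n _, countable_range _, ?_, ?_, ?_⟩
  · intro hfin
    have : Finite (range fun n => e n (m n)) := hfin
    obtain ⟨⟨g, hg⟩, hg2⟩ := Finite.exists_infinite_fiber (rangeFactorization fun n => e n (m n))
    have h1 : {n | e n (m n) = g}.Infinite := by
      have h2 := Set.infinite_coe_iff.1 hg2
      refine h2.mono fun n hn => ?_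
      exact congrArg Subtype.val hn
    obtain ⟨n₀, hn₀⟩ := h1.nonempty
    refine (hA n₀).2.2.1 ?_
    have h3 : g = zero X := by
      refine Subtype.ext (funext fun x => ?_)
      obtain ⟨k, hk⟩ := hm x
      have h4 : ∀ ε > 0, |g.1 x| < ε := by
        intro ε hε
        obtain ⟨N, hN⟩ := exists_nat_gt (1 / ε)
        obtain ⟨n, hn, hkn⟩ := h1.exists_gt (max k N)
        have h5 := hk n ((le_max_left _ _).trans hkn.le)
        have h6 : |g.1 x| < 1 / ((n : ℝ) + 1) := by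
          have : (f n (m n)) x = g.1 x := by
            change (e n (m n)).1 x = g.1 x
            rw [show e n (m n) = g from hn]
          rwa [this] at h5
        refine h6.trans_le ?_
        rw [div_le_iff₀ (by positivity)]
        have h7 : (N : ℝ) ≤ n := by exact_mod_cast (le_max_right k N).trans hkn.le
        have h8 : 1 / ε < (n : ℝ) + 1 := by linarith
        rw [div_lt_iff₀ hε] at h8
        linarith
      have h9 : |g.1 x| ≤ 0 := by
        by_contra hcon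
        push Not at hcon
        exact lt_irrefl _ (h4 _ hcon)
      have := abs_nonpos_iff.1 h9
      simpa [zero] using this
    rw [← h3, ← hn₀]
    exact heA _ _
  · rintro ⟨n, hn⟩
    exact (hA n).2.2.1 (by rw [← hn]; exact heA _ _)
  · intro U hU
    obtain ⟨k, hk⟩ := hconv U hU
    refine ((Finset.range k).finite_toSet.image fun n => e n (m n)).subset ?_
    rintro _ ⟨⟨n, rfl⟩, hn⟩
    refine ⟨n, ?_, rfl⟩
    rw [Finset.mem_coe, Finset.mem_range]
    by_contra hcon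
    exact hn (hk n (not_lt.1 hcon))

theorem seq_of_sgg_like {X : Set ℝ} (h : Sel X) : SGG X := sgg_of h

/-- there is a continuous injection of Cantor space into the irrationals -/
theorem exists_D : ∃ D : (ℕ → Bool) → ℝ, Continuous D ∧ Function.Injective D ∧ ∀ x, Irrational (D x) := by
  have hm : MeasurableSet {x : ℝ | Irrational x} := by
    have : {x : ℝ | Irrational x} = (range ((↑) : ℚ → ℝ))ᶜ := rfl
    rw [this]
    exact (countable_range _).measurableSet.compl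
  have hpos : (0 : ENNReal) < volume {x : ℝ | Irrational x} := by
    have h0 : volume ({x : ℝ | Irrational x}ᶜ) = 0 := by
      have : {x : ℝ | Irrational x}ᶜ = range ((↑) : ℚ → ℝ) := by
        rw [show {x : ℝ | Irrational x} = (range ((↑) : ℚ → ℝ))ᶜ from rfl, compl_compl]
      rw [this]
      exact (countable_range _).measure_zero _
    have : volume {x : ℝ | Irrational x} = ⊤ := by
      have h1 := measure_add_measure_compl (μ := (volume : Measure ℝ)) hm
      rw [h0, add_zero] at h1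
      rw [h1]
      simp
    rw [this]
    simp
  obtain ⟨K, hK, hKc, hK0⟩ := hm.exists_lt_isCompact hpos
  have hunc : ¬ K.Countable := fun h => by
    rw [h.measure_zero] at hK0
    exact lt_irrefl _ hK0
  obtain ⟨D, hD1, hD2, hD3⟩ := hKc.isClosed.exists_nat_bool_injection_of_not_countable hunc
  exact ⟨D, hD2, hD3, fun x => hK (hD1 ⟨x, rfl⟩)⟩

/-- an open set around a point of the embedded Cantor space contains a cylinder -/
theorem exists_cyl' {D : (ℕ → Bool) → ℝ} (hD : Continuous D) {V : Set ℝ} (hV : IsOpen V) {x : ℕ → Bool}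
    (hx : D x ∈ V) : ∃ N : ℕ, ∀ y : ℕ → Bool, (∀ i < N, y i = x i) → D y ∈ V := by
  have ho : IsOpen (D ⁻¹' V) := hV.preimage hD
  obtain ⟨s, ⟨y, m, rfl⟩, hxs, hsO⟩ :=
    (PiNat.isTopologicalBasis_cylinders (fun _ : ℕ => Bool)).mem_nhds_iff.1 (ho.mem_nhds hx)
  refine ⟨m, fun z hz => hsO ?_⟩
  rw [PiNat.mem_cylinder_iff] at hxs ⊢
  intro i hi
  rw [hz i hi, hxs i hi]

theorem isOpen_CC (n m : ℕ) : IsOpen (CC n m) := by
  have h : CC n m = {x | x (Nat.pair n m) = true} ∩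
      ⋂ j ∈ Finset.range m, {x | x (Nat.pair n j) = false} := by
    ext x
    simp [CC]
  rw [h]
  refine IsOpen.inter ?_ (isOpen_biInter_finset fun j _ => ?_)
  · exact (isOpen_discrete ({true} : Set Bool)).preimage
      (show Continuous fun x : ℕ → Bool => x (Nat.pair n m) from continuous_apply _)
  · exact (isOpen_discrete ({false} : Set Bool)).preimage
      (show Continuous fun x : ℕ → Bool => x (Nat.pair n j) from continuous_apply _)

theorem CC_disj {n m m' : ℕ} {x : ℕ → Bool} (h1 : x ∈ CC n m) (h2 : x ∈ CC n m') : m = m' := by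
  rcases lt_trichotomy m m' with h3 | h3 | h3
  · have := h2.2 m h3
    rw [h1.1] at this
    exact absurd this (by simp)
  · exact h3
  · have := h1.2 m' h3
    rw [h2.1] at this
    exact absurd this (by simp)

theorem CC_inter (f : ℕ → ℕ) : ∃ x, ∀ n, x ∈ CC n (f n) := by
  refine ⟨fun i => decide ((Nat.unpair i).2 = f (Nat.unpair i).1), fun n => ⟨?_, fun j hj => ?_⟩⟩
  · simp
  · simp [hj.ne]

/-- the union: for the range of a continuous injection of Cantor space there are continuous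
`{0,1}`-valued functions witnessing the failure -/
theorem exists_bad {D : (ℕ → Bool) → ℝ} (hD : Continuous D) (hinj : Function.Injective D) {X : Set ℝ}
    (hX : X = range D) :
    ∃ f : ℕ → ℕ → C(X, ℝ), (∀ n k x, f n k x = 0 ∨ f n k x = 1) ∧
      (∀ n x, {k | f n k x ≠ 0}.Subsingleton) ∧
      ∀ m : ℕ → ℕ, ∃ x, ∀ n, f n (m n) x = 1 := by
  classical
  subst hX
  have hemb : IsClosedEmbedding D := hD.isClosedEmbedding hinj
  let φ : (ℕ → Bool) ≃ₜ range D := hemb.toIsEmbedding.toHomeomorph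
  have hφ : ∀ x, (φ x : ℝ) = D x := fun x => rfl
  let f : ℕ → ℕ → C(range D, ℝ) := fun n k =>
    ⟨fun y => (CC n k).indicator 1 (φ.symm y), by
      refine Continuous.comp (g := (CC n k).indicator (1 : (ℕ → Bool) → ℝ)) ?_ φ.symm.continuous
      exact (IsClopen.continuous_indicator (f := (1 : (ℕ → Bool) → ℝ))
        ⟨isClosed_CC n k, isOpen_CC n k⟩ continuous_const)⟩
  have hf1 : ∀ n k y, φ.symm y ∈ CC n k → f n k y = 1 := fun n k y hy =>
    Set.indicator_of_mem hy _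
  have hf0 : ∀ n k y, φ.symm y ∉ CC n k → f n k y = 0 := fun n k y hy =>
    Set.indicator_of_notMem hy _
  refine ⟨f, fun n k y => ?_, fun n y => ?_, fun m => ?_⟩
  · by_cases hy : φ.symm y ∈ CC n k
    · exact Or.inr (hf1 n k y hy)
    · exact Or.inl (hf0 n k y hy)
  · intro k hk k' hk'
    have h1 : φ.symm y ∈ CC n k := by
      by_contra hcon
      exact hk (hf0 n k y hcon)
    have h2 : φ.symm y ∈ CC n k' := by
      by_contra hcon
      exact hk' (hf0 n k' y hcon)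
    exact CC_disj h1 h2
  · obtain ⟨x, hx⟩ := CC_inter m
    exact ⟨φ x, fun n => hf1 n (m n) (φ x) (by rw [Homeomorph.symm_apply_apply]; exact hx n)⟩

theorem tendsto_of_subsingleton {u : ℕ → ℝ} (h : {k | u k ≠ 0}.Subsingleton) : Tendsto u atTop (𝓝 0) := by
  obtain ⟨b, hb⟩ := h.finite.bddAbove
  refine tendsto_const_nhds.congr' (eventually_atTop.2 ⟨b + 1, fun k hk => ?_⟩)
  by_contra hcon
  have : k ≤ b := hb (fun h0 => hcon h0.symm)
  omega

theorem not_seq_range {D : (ℕ → Bool) → ℝ} (hD : Continuous D) (hinj : Function.Injective D) {X : Set ℝ}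
    (hX : X = range D) : ¬ Seq X := by
  intro h
  obtain ⟨f, -, hf2, hf3⟩ := exists_bad hD hinj hX
  obtain ⟨m, hm⟩ := h f fun n x => tendsto_of_subsingleton (hf2 n x)
  obtain ⟨x, hx⟩ := hf3 m
  have h1 := hm x
  simp only [hx] at h1
  exact one_ne_zero (tendsto_nhds_unique tendsto_const_nhds h1)

theorem not_s1_range {D : (ℕ → Bool) → ℝ} (hD : Continuous D) (hinj : Function.Injective D) {X : Set ℝ}
    (hX : X = range D) : ¬ S1 (zero X) := by
  classical
  intro h
  obtain ⟨f, hf1, hf2, hf3⟩ := exists_bad hD hinj hX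
  let e : ℕ → ℕ → CpX X := fun n k => ⟨f n k, (f n k).continuous⟩
  have hinj' : ∀ n, Function.Injective (e n) := by
    intro n k k' hkk
    obtain ⟨x, hx⟩ := hf3 fun _ => k
    have h1 : f n k x = 1 := hx n
    have h2 : f n k' x = 1 := by
      rw [← h1]
      exact (congrFun (congrArg Subtype.val hkk) x).symm
    exact hf2 n x (by change f n k x ≠ 0; rw [h1]; exact one_ne_zero)
      (by change f n k' x ≠ 0; rw [h2]; exact one_ne_zero)
  obtain ⟨a, ha1, ha2⟩ := h (fun n => range (e n)) (by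
    intro n
    refine ⟨countable_range _, infinite_range_of_injective (hinj' n), ?_, ?_⟩
    · rintro ⟨k, hk⟩
      obtain ⟨x, hx⟩ := hf3 fun _ => k
      have h1 : f n k x = 1 := hx n
      have h2 : f n k x = 0 := congrFun (congrArg Subtype.val hk) x
      rw [h1] at h2
      exact one_ne_zero h2
    · intro U hU
      have ht : Tendsto (e n) atTop (𝓝 (zero X)) := by
        rw [tendsto_subtype_rng, tendsto_pi_nhds]
        intro x
        exact tendsto_of_subsingleton (hf2 n x)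
      obtain ⟨k, hk⟩ := eventually_atTop.1 (ht.eventually_mem hU)
      refine ((Finset.range k).finite_toSet.image fun j => e n j).subset ?_
      rintro _ ⟨⟨j, rfl⟩, hj⟩
      refine ⟨j, ?_, rfl⟩
      rw [Finset.mem_coe, Finset.mem_range]
      by_contra hcon
      exact hj (hk j (not_lt.1 hcon)))
  choose m hm using ha1
  obtain ⟨x, hx⟩ := hf3 m
  have hU : {g : CpX X | |g.1 x| < 1} ∈ 𝓝 (zero X) := by
    have h2 : Continuous fun g : CpX X => |g.1 x| :=
      ((continuous_apply x).comp continuous_subtype_val).abs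
    exact (isOpen_lt h2 continuous_const).mem_nhds (by simp [zero])
  refine ha2.2.1 ((ha2.2.2.2 _ hU).subset ?_)
  rintro _ ⟨n, rfl⟩
  refine ⟨⟨n, rfl⟩, fun h3 => ?_⟩
  rw [← hm n] at h3
  have h4 : |f n (m n) x| < 1 := h3
  rw [hx n] at h4
  simp at h4

variable {W E : Type} {R : W → E → Prop}

/-- the main step -/
theorem main (h : Hyp W E R) : ∃ X : W → Set ℝ, (∀ w, X w ⊆ {x : ℝ | Irrational x}) ∧
    (∀ w, Sel (X w)) ∧ ∃ D : (ℕ → Bool) → ℝ, Continuous D ∧ Function.Injective D ∧ (⋃ w, X w) = range D := by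
  classical
  obtain ⟨D, hD1, hD2, hD3⟩ := exists_D
  obtain ⟨h1, -, ev, h2, h3⟩ := h
  let Y : W → Set ℝ := fun w => {t | ∃ e, R w e ∧ ∃ x : ℕ → Bool, (∀ n, x n = true ↔ ev e n) ∧ D x = t}
  refine ⟨Y, ?_, ?_, D, hD1, hD2, ?_⟩
  · rintro w _ ⟨e, -, x, -, rfl⟩
    exact hD3 x
  · intro w V hV hx
    obtain ⟨M, hM1, hM2⟩ := h3 w (fun n m s => ∀ x : ℕ → Bool, (∀ i : Fin s.length, x i = s.get i) →
      D x ∈ V n m) (by
      intro e he n
      obtain ⟨k, hk⟩ := hx (D fun n => decide (ev e n)) ⟨e, he, _, fun n => by simp, rfl⟩ n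
      refine ⟨k, fun m hm => ?_⟩
      obtain ⟨N, hN⟩ := exists_cyl' hD1 (hV n m) (hk m hm)
      refine ⟨List.ofFn fun i : Fin N => decide (ev e i), fun x hx => hN x fun i hi => ?_, ?_⟩
      · have := hx ⟨i, by simpa using hi⟩
        simpa using this
      · rintro ⟨i, hi⟩
        simp)
    choose f hf using hM1
    refine ⟨f, ?_⟩
    rintro t ⟨e, he, x, hx, rfl⟩
    obtain ⟨k, hk⟩ := hM2 e he
    refine ⟨k, fun n hn => ?_⟩
    obtain ⟨s, hs1, hs2⟩ := hk n hn (f n) (hf n)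
    refine hs1 x fun i => ?_
    rw [Bool.eq_iff_iff, hx, hs2 i]
  · ext t
    constructor
    · intro ht
      obtain ⟨w, e, -, x, -, rfl⟩ := mem_iUnion.1 ht
      exact ⟨x, rfl⟩
    · rintro ⟨x, rfl⟩
      obtain ⟨e, he⟩ := h2 fun n => x n = true
      obtain ⟨w, hw⟩ := h1 e
      exact mem_iUnion.2 ⟨w, e, hw, x, he, rfl⟩

theorem bdd_of_lt_bb (h : #W < bb) (F : W → ℕ → ℕ) : ∃ g : ℕ → ℕ, ∀ w, ∀ᶠ n in atTop, F w n ≤ g n := by
  by_contra hcon
  push Not at hcon
  refine absurd h (not_lt.2 ?_)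
  refine (csInf_le' (s := {κ : Cardinal.{0} | ∃ F : Set (ℕ → ℕ), #F = κ ∧
    ∀ g : ℕ → ℕ, ∃ f ∈ F, ¬ ∀ᶠ n in atTop, f n ≤ g n}) ⟨range F, rfl, fun g => ?_⟩).trans
    Cardinal.mk_range_le
  obtain ⟨w, hw⟩ := hcon g
  refine ⟨F w, ⟨w, rfl⟩, fun h5 => ?_⟩
  obtain ⟨n, hn1, hn2⟩ := (hw.and_eventually h5).exists
  exact absurd hn2 (not_le.2 hn1)

theorem not_sentence (h : Hyp W E R) : ¬ Sentence := by
  intro hS
  obtain ⟨X, hX1, hX2, D, hD1, hD2, hD3⟩ := main h
  exact not_seq_range hD1 hD2 hD3 (hS W X (bdd_of_lt_bb h.lt_bb) hX1 fun w => (hX2 w).seq)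

end Pool.Agent.H735.Cp
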